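import Pool.Agent.Helper68_LYM.FRQ

/-!
# LYM, FRM: mass of the free kernel in the orthants
-/

set_option autoImplicit false

open MeasureTheory ProbabilityTheory Function

open scoped ENNReal BigOperators Topology NNReal ComplexConjugate

noncomputable section

namespace Pool.Agent.LE.MN.H68

open Pool.Agent.Anderson hiding box mem_box card_box c2
open Pool.Agent.Loc Pool.Agent.Mob Pool.Agent.Helper54.Bal
  Pool.Agent.Helper96.EXP Pool.Agent.BED

variable {d : ℕ}

theorem ch_sgl (v : Site d) (i : Fin d) (t : UnitAddCircle) :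
    ch v (Pi.single i t : UnitAddTorus (Fin d)) = fourier (v i) t := by
  unfold ch UnitAddTorus.mFourier
  simp only [ContinuousMap.coe_mk]
  rw [Finset.prod_eq_single i]
  · rw [Pi.single_eq_same]
  · intro j _ hj
    rw [Pi.single_eq_of_ne hj]
    simp [fourier_apply]
  · intro h; exact absurd (Finset.mem_univ _) h

theorem ch_sub_one_le (v : Site d) (i : Fin d) {η : ℝ} (hη : 0 < η) :
    ‖ch v (Pi.single i (η : UnitAddCircle) : UnitAddTorus (Fin d)) - 1‖ ≤
      2 * Real.pi * η * |(v i : ℝ)| := by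
  rw [ch_sgl, fourier_coe_apply]
  have e : (2 * (Real.pi : ℂ) * Complex.I * ((v i : ℤ) : ℂ) * (η : ℂ) / ((1 : ℝ) : ℂ)) =
      Complex.I * ((2 * Real.pi * (v i : ℝ) * η : ℝ) : ℂ) := by
    push_cast
    ring
  rw [e]
  refine le_trans (Real.norm_exp_I_mul_ofReal_sub_one_le) ?_
  rw [Real.norm_eq_abs, abs_mul, abs_mul, abs_mul, abs_of_pos Real.pi_pos, abs_of_pos hη,
    abs_of_pos (by norm_num : (0 : ℝ) < 2)]
  linarith

theorem ch_sub_one_le' (v : Site d) (θ : UnitAddTorus (Fin d)) : ‖ch v θ - 1‖ ≤ 2 := by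
  refine le_trans (norm_sub_le _ _) ?_
  rw [norm_ch, norm_one]
  norm_num

/-- total mass -/
theorem fk_total (frp : FrpStmt) (hd : 3 ≤ d) (E : ℝ) {η : ℝ} (hη : 0 < η) :
    ∑' v : Site d, ‖fk (zc E η) v‖ ^ 2 ≤ 128 * Real.pi / η := by
  obtain ⟨_, h2, _⟩ := frp d E η hη
  rw [h2]
  have h3 := integral_ker_le hd hη E
  have e : ∀ θ : UnitAddTorus (Fin d), ‖((sy θ : ℂ) - zc E η)⁻¹‖ ^ 2 =
      η⁻¹ * ker η (sy θ - E) := by
    intro θ
    have h4 := norm_sy_sub (d := d) E η θ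
    have h5 : ‖(sy θ : ℂ) - zc E η‖ = md E η θ := h4
    rw [norm_inv, h5, inv_pow, md, Real.sq_sqrt (by positivity), ker]
    field_simp
  simp only [e]
  rw [integral_const_mul]
  calc η⁻¹ * ∫ θ : UnitAddTorus (Fin d), ker η (sy θ - E) ≤ η⁻¹ * (128 * Real.pi) :=
        mul_le_mul_of_nonneg_left h3 (by positivity)
    _ = _ := by ring

/-- exponential decay -/
theorem fk_decay (frp : FrpStmt) (ctg : CtgStmt) (hd : 1 ≤ d) (E : ℝ) {η : ℝ} (hη : 0 < η)
    (hη1 : η ≤ 1) (R : ℕ) (T : Finset (Site d)) (hT : ∀ v ∈ T, v ∉ box (0 : Site d) R) :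
    ∑ v ∈ T, ‖fk (zc E η) v‖ ^ 2 ≤ Real.exp (-(η * R / (4 * d))) * (4 / η ^ 2) := by
  have hd0 : (0 : ℝ) < d := by exact_mod_cast hd
  have hd1 : (1 : ℝ) ≤ d := by exact_mod_cast hd
  obtain ⟨h1, _, _⟩ := frp d E η hη
  have hκ : 4 * d * (Real.exp (η / (8 * d)) - 1) ≤ η := by
    have hx0 : 0 ≤ η / (8 * d) := by positivity
    have hx1 : η / (8 * d) ≤ 1 := by
      rw [div_le_one (by positivity)]; linarith
    have hb : |Real.exp (η / (8 * d)) - 1| ≤ 2 * |η / (8 * d)| :=
      Real.abs_exp_sub_one_le (by rw [abs_of_nonneg hx0]; exact hx1)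
    rw [abs_of_nonneg hx0] at hb
    have := le_trans (le_abs_self _) hb
    calc 4 * d * (Real.exp (η / (8 * d)) - 1) ≤ 4 * d * (2 * (η / (8 * d))) :=
          mul_le_mul_of_nonneg_left this (by positivity)
      _ = η := by field_simp; ring
  have h2 := ctg d (fun _ => 0) Set.univ E η (η / (8 * d)) 0 (fk (zc E η)) 0 hη (by positivity) hκ
    (fun v _ => by simp) h1 (fun v hv => absurd (Set.mem_univ v) hv) (fun v _ => by
      have := fk_eq (d := d) (E := E) hη v
      rw [Complex.ofReal_zero, zero_mul, add_zero, this]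
      split_ifs <;> simp) T
  have h3 : Real.exp (η * R / (4 * d)) * ∑ v ∈ T, ‖fk (zc E η) v‖ ^ 2 ≤
      ∑ v ∈ T, Real.exp (2 * (η / (8 * d)) * sd 0 v) * ‖fk (zc E η) v‖ ^ 2 := by
    rw [Finset.mul_sum]
    refine Finset.sum_le_sum fun v hv => mul_le_mul_of_nonneg_right ?_ (by positivity)
    refine Real.exp_le_exp.2 ?_
    have h4 : (R : ℝ) ≤ sd 0 v := by
      have h5 := hT v hv
      rw [mem_box] at h5
      have h6 : R ≤ sd 0 v := by omega
      exact_mod_cast h6
    have e : 2 * (η / (8 * d)) * (sd 0 v : ℝ) = η * sd 0 v / (4 * d) := by field_simp; ring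
    rw [e]
    refine div_le_div_of_nonneg_right ?_ (by positivity)
    exact mul_le_mul_of_nonneg_left h4 hη.le
  have h4 := le_trans h3 h2
  rw [Real.exp_neg, inv_mul_eq_div, le_div_iff₀ (Real.exp_pos _), mul_comm]
  exact h4

/-- the orthant -/
def Or (T : Finset (Fin d)) (v : Site d) : Prop := ∀ j, (j ∈ T → v j ≤ 0) ∧ (j ∉ T → 0 ≤ v j)

open Classical in
theorem orth_eq {E η : ℝ} (hη : 0 < η) (i : Fin d) (L R : ℕ) (T T' : Finset (Fin d)) :
    ∑ v ∈ (box (0 : Site d) R).filter (fun v => (L : ℤ) ≤ |v i| ∧ Or T' v),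
      ‖fk (zc E η) v‖ ^ 2 =
    ∑ v ∈ (box (0 : Site d) R).filter (fun v => (L : ℤ) ≤ |v i| ∧ Or T v),
      ‖fk (zc E η) v‖ ^ 2 := by
  obtain ⟨U, hU⟩ : ∃ U : Finset (Fin d), U = (T \ T') ∪ (T' \ T) := ⟨_, rfl⟩
  have key : ∀ (S S' : Finset (Fin d)), (∀ j, j ∈ U ↔ (j ∈ S ∧ j ∉ S') ∨ (j ∈ S' ∧ j ∉ S)) →
      ∀ v ∈ (box (0 : Site d) R).filter (fun v => (L : ℤ) ≤ |v i| ∧ Or S' v),
      (fun j => if j ∈ U then -v j else v j) ∈
        (box (0 : Site d) R).filter (fun v => (L : ℤ) ≤ |v i| ∧ Or S v) := by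
    intro S S' hS v hv
    obtain ⟨h1, h2, h3⟩ := Finset.mem_filter.1 hv
    refine Finset.mem_filter.2 ⟨?_, ?_, ?_⟩
    · rw [mem_box, sd_le_iff] at h1 ⊢
      intro j
      have := h1 j
      simp only [Pi.zero_apply, zero_sub, abs_neg] at this ⊢
      split_ifs
      · rw [abs_neg]; exact this
      · exact this
    · show (L : ℤ) ≤ |if i ∈ U then -v i else v i|
      split_ifs
      · rw [abs_neg]; exact h2
      · exact h2
    · intro j
      have h4 := h3 j
      have h5 := hS j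
      by_cases hj : j ∈ U
      · simp only [if_pos hj]
        rcases h5.1 hj with ⟨ha, hb⟩ | ⟨ha, hb⟩
        · exact ⟨fun _ => by have := h4.2 hb; linarith, fun h => absurd ha h⟩
        · exact ⟨fun h => absurd h hb, fun _ => by have := h4.1 ha; linarith⟩
      · simp only [if_neg hj]
        have h6 : j ∈ S ↔ j ∈ S' := by
          by_contra hne
          apply hj
          rw [h5]
          tauto
        exact ⟨fun h => h4.1 (h6.1 h), fun h => h4.2 fun h' => h (h6.2 h')⟩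
  have hinv : ∀ v : Site d, (fun j => if j ∈ U then -(fun j => if j ∈ U then -v j else v j) j else
      (fun j => if j ∈ U then -v j else v j) j) = v := by
    intro v
    funext j
    by_cases hj : j ∈ U
    · simp only [if_pos hj, neg_neg]
    · simp only [if_neg hj]
  refine Finset.sum_bij' (fun v _ => fun j => if j ∈ U then -v j else v j)
    (fun v _ => fun j => if j ∈ U then -v j else v j) ?_ ?_ ?_ ?_ ?_
  · exact key T T' fun j => by rw [hU, Finset.mem_union, Finset.mem_sdiff, Finset.mem_sdiff]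
  · exact key T' T fun j => by rw [hU, Finset.mem_union, Finset.mem_sdiff, Finset.mem_sdiff]; tauto
  · intro v _; exact hinv v
  · intro v _; exact hinv v
  · intro v _
    obtain ⟨_, h⟩ := frq d E η hη
    rw [h U v]

open Classical in
/-- mass at distance at least `L` in the direction `i`, inside the cube -/
theorem mass_L (tlb : TlbStmt) (frp : FrpStmt) (ctg : CtgStmt) (d : ℕ) (δ : ℝ) (hd : 3 ≤ d)
    (hδ : 0 < δ) : ∃ c₀ C₁ : ℝ, 0 < c₀ ∧ c₀ ≤ 1 ∧ 1 ≤ C₁ ∧
    ∀ (E η : ℝ) (i : Fin d) (L R : ℕ), |E| ≤ 2 * d - δ → 0 < η → η ≤ c₀ →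
    L ≤ c₀ / η → C₁ * (1 + Real.log (1 / η)) / η ≤ R →
      c₀ / η ≤ ∑ v ∈ (box (0 : Site d) R).filter (fun v => (L : ℤ) ≤ |v i|),
        ‖fk (zc E η) v‖ ^ 2 := by
  obtain ⟨c, hc, htlb⟩ := tlb d δ (by omega) hδ
  have hpi := Real.pi_pos
  have hd1 : 1 ≤ d := by omega
  have hd0 : (3 : ℝ) ≤ d := by exact_mod_cast hd
  obtain ⟨c₁, hc₁⟩ : ∃ c₁, c₁ = c / (1024 * Real.pi ^ 3) := ⟨_, rfl⟩
  have hc₁0 : 0 < c₁ := by rw [hc₁]; positivity
  obtain ⟨B, hB⟩ : ∃ B, B = max 0 (Real.log (64 / c)) := ⟨_, rfl⟩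
  have hB0 : 0 ≤ B := by rw [hB]; exact le_max_left _ _
  have hBc : Real.exp (-B) ≤ c / 64 := by
    have h1 : Real.log (64 / c) ≤ B := by rw [hB]; exact le_max_right _ _
    have h2 := Real.exp_le_exp.2 (neg_le_neg h1)
    rw [Real.exp_neg (Real.log (64 / c)), Real.exp_log (by positivity), inv_div] at h2
    exact h2
  refine ⟨min (min 1 (c / 16)) (min c c₁), 4 * d * (1 + B), by positivity,
    le_trans (min_le_left _ _) (min_le_left _ _), by nlinarith, ?_⟩
  intro E η i L R hE hη hηc hL hR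
  obtain ⟨c₀, hc₀⟩ : ∃ c₀, c₀ = min (min 1 (c / 16)) (min c c₁) := ⟨_, rfl⟩
  rw [← hc₀] at hηc hL ⊢
  have hc00 : 0 < c₀ := by rw [hc₀]; positivity
  have hc01 : c₀ ≤ 1 := by rw [hc₀]; exact le_trans (min_le_left _ _) (min_le_left _ _)
  have hc016 : c₀ ≤ c / 16 := by rw [hc₀]; exact le_trans (min_le_left _ _) (min_le_right _ _)
  have hc0c : c₀ ≤ c := by rw [hc₀]; exact le_trans (min_le_right _ _) (min_le_left _ _)
  have hc0c1 : c₀ ≤ c₁ := by rw [hc₀]; exact le_trans (min_le_right _ _) (min_le_right _ _)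
  have hη1 : η ≤ 1 := le_trans hηc hc01
  obtain ⟨g, hg⟩ : ∃ g : Site d → ℝ, g = fun v => ‖fk (zc E η) v‖ ^ 2 := ⟨_, rfl⟩
  have hg0 : ∀ v, 0 ≤ g v := fun v => by rw [hg]; positivity
  obtain ⟨α, hα⟩ : ∃ α : UnitAddTorus (Fin d), α = Pi.single i (η : UnitAddCircle) := ⟨_, rfl⟩
  obtain ⟨hs, _, h3⟩ := frp d E η hη
  obtain ⟨h4, h5⟩ := h3 α
  have h6 := htlb E η i hE hη (le_trans hηc hc0c)
  rw [← hα, ← h5] at h6
  have htot := fk_total frp hd E hη
  obtain ⟨S, hS⟩ : ∃ S : ℝ, S = ∑ v ∈ (box (0 : Site d) R).filter (fun v => (L : ℤ) ≤ |v i|),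
    ‖fk (zc E η) v‖ ^ 2 := ⟨_, rfl⟩
  rw [← hS]
  -- pointwise bound
  have hpt : ∀ v : Site d, ‖ch v α - 1‖ ^ 2 * g v ≤
      (2 * Real.pi * c₀) ^ 2 * g v + 4 * (if (L : ℤ) ≤ |v i| then g v else 0) := by
    intro v
    by_cases hv : (L : ℤ) ≤ |v i|
    · rw [if_pos hv]
      have h7 := ch_sub_one_le' v α
      have h8 : ‖ch v α - 1‖ ^ 2 ≤ 4 := by
        calc ‖ch v α - 1‖ ^ 2 ≤ 2 ^ 2 := pow_le_pow_left₀ (norm_nonneg _) h7 2
          _ = 4 := by norm_num
      have h9 := mul_le_mul_of_nonneg_right h8 (hg0 v)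
      have h10 : 0 ≤ (2 * Real.pi * c₀) ^ 2 * g v := mul_nonneg (by positivity) (hg0 v)
      linarith
    · rw [if_neg hv, mul_zero, add_zero]
      refine mul_le_mul_of_nonneg_right ?_ (hg0 v)
      refine pow_le_pow_left₀ (norm_nonneg _) ?_ 2
      rw [hα]
      refine le_trans (ch_sub_one_le v i hη) ?_
      have h7 : |(v i : ℝ)| ≤ L := by
        have h8 : |v i| ≤ (L : ℤ) := by omega
        exact_mod_cast h8
      calc 2 * Real.pi * η * |(v i : ℝ)| ≤ 2 * Real.pi * η * (c₀ / η) :=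
            mul_le_mul_of_nonneg_left (le_trans h7 hL) (by positivity)
        _ = 2 * Real.pi * c₀ := by field_simp
  have hsg : Summable g := by rw [hg]; exact hs
  have hsi : Summable fun v : Site d => if (L : ℤ) ≤ |v i| then g v else 0 := by
    refine Summable.of_nonneg_of_le (fun v => ?_) (fun v => ?_) hsg
    · split_ifs; exacts [hg0 v, le_rfl]
    · split_ifs; exacts [le_rfl, hg0 v]
  have h7 : c / η ≤ (2 * Real.pi * c₀) ^ 2 * ∑' v, g v +
      4 * ∑' v : Site d, (if (L : ℤ) ≤ |v i| then g v else 0) := by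
    calc c / η ≤ ∑' v : Site d, ‖ch v α - 1‖ ^ 2 * ‖fk (zc E η) v‖ ^ 2 := h6
      _ ≤ ∑' v : Site d, ((2 * Real.pi * c₀) ^ 2 * g v +
          4 * (if (L : ℤ) ≤ |v i| then g v else 0)) := by
          refine Summable.tsum_le_tsum (fun v => ?_) h4 ((hsg.mul_left _).add (hsi.mul_left _))
          have := hpt v
          rw [hg] at this ⊢
          exact this
      _ = _ := by
          rw [Summable.tsum_add (hsg.mul_left _) (hsi.mul_left _), tsum_mul_left, tsum_mul_left]
  have h8 : (2 * Real.pi * c₀) ^ 2 * ∑' v, g v ≤ c / 2 / η := by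
    have h9 : ∑' v, g v ≤ 128 * Real.pi / η := by rw [hg]; exact htot
    calc (2 * Real.pi * c₀) ^ 2 * ∑' v, g v ≤ (2 * Real.pi * c₀) ^ 2 * (128 * Real.pi / η) :=
          mul_le_mul_of_nonneg_left h9 (by positivity)
      _ = (512 * Real.pi ^ 3) * (c₀ * c₀) / η := by ring
      _ ≤ (512 * Real.pi ^ 3) * (1 * c₁) / η := by
          refine div_le_div_of_nonneg_right ?_ hη.le
          refine mul_le_mul_of_nonneg_left ?_ (by positivity)
          exact mul_le_mul hc01 hc0c1 hc00.le zero_le_one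
      _ = c / 2 / η := by rw [hc₁]; field_simp; ring
  -- the tail
  have hexp : Real.exp (-(η * R / (4 * d))) * (4 / η ^ 2) ≤ c / 16 / η := by
    have h9 : B + Real.log (1 / η) ≤ η * R / (4 * d) := by
      rw [le_div_iff₀ (by positivity)]
      have hlog : 0 ≤ Real.log (1 / η) := Real.log_nonneg (by rw [one_le_div hη]; exact hη1)
      have h10 := (div_le_iff₀ hη).1 hR
      have h11 : (B + Real.log (1 / η)) * (4 * d) ≤ 4 * d * (1 + B) * (1 + Real.log (1 / η)) := by
        have : B + Real.log (1 / η) ≤ (1 + B) * (1 + Real.log (1 / η)) := by nlinarith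
        calc (B + Real.log (1 / η)) * (4 * d) ≤ (1 + B) * (1 + Real.log (1 / η)) * (4 * d) :=
              mul_le_mul_of_nonneg_right this (by positivity)
          _ = _ := by ring
      linarith
    have h10 : Real.exp (-(η * R / (4 * d))) ≤ c / 64 * η := by
      calc Real.exp (-(η * R / (4 * d))) ≤ Real.exp (-(B + Real.log (1 / η))) :=
            Real.exp_le_exp.2 (neg_le_neg h9)
        _ = Real.exp (-B) * η := by
            rw [neg_add, Real.exp_add, ← Real.log_inv, one_div, inv_inv, Real.exp_log hη]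
        _ ≤ _ := mul_le_mul_of_nonneg_right hBc hη.le
    calc Real.exp (-(η * R / (4 * d))) * (4 / η ^ 2) ≤ c / 64 * η * (4 / η ^ 2) :=
          mul_le_mul_of_nonneg_right h10 (by positivity)
      _ = c / 16 / η := by field_simp; ring
  have h9 : ∑' v : Site d, (if (L : ℤ) ≤ |v i| then g v else 0) ≤ S + c / 16 / η := by
    refine Real.tsum_le_of_sum_le (fun v => ?_) fun T => ?_
    · split_ifs; exacts [hg0 v, le_rfl]
    · have e1 : ∑ v ∈ T, (if (L : ℤ) ≤ |v i| then g v else 0) =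
          ∑ v ∈ T.filter (fun v => v ∈ box (0 : Site d) R), (if (L : ℤ) ≤ |v i| then g v else 0) +
          ∑ v ∈ T.filter (fun v => v ∉ box (0 : Site d) R), (if (L : ℤ) ≤ |v i| then g v else 0) :=
        (Finset.sum_filter_add_sum_filter_not T _ _).symm
      rw [e1]
      refine add_le_add ?_ ?_
      · rw [hS, ← Finset.sum_filter, hg]
        refine Finset.sum_le_sum_of_subset_of_nonneg ?_ fun v _ _ => by positivity
        intro v hv
        obtain ⟨h10, h11⟩ := Finset.mem_filter.1 hv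
        exact Finset.mem_filter.2 ⟨(Finset.mem_filter.1 h10).2, h11⟩
      · calc ∑ v ∈ T.filter (fun v => v ∉ box (0 : Site d) R),
              (if (L : ℤ) ≤ |v i| then g v else 0) ≤
              ∑ v ∈ T.filter (fun v => v ∉ box (0 : Site d) R), g v := by
              refine Finset.sum_le_sum fun v _ => ?_
              split_ifs; exacts [le_rfl, hg0 v]
          _ ≤ Real.exp (-(η * R / (4 * d))) * (4 / η ^ 2) := by
              rw [hg]
              exact fk_decay frp ctg hd1 E hη hη1 R _ fun v hv => (Finset.mem_filter.1 hv).2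
          _ ≤ _ := hexp
  have h10 : c / 16 / η ≤ S := by
    have e2 : c / η = c / 2 / η + 4 * (c / 8 / η) := by field_simp; norm_num
    have e3 : c / 8 / η = c / 16 / η + c / 16 / η := by field_simp; norm_num
    linarith
  exact le_trans (div_le_div_of_nonneg_right hc016 hη.le) h10

open Classical in
theorem frm (tlb : TlbStmt) (frp : FrpStmt) (ctg : CtgStmt) : FrmStmt := by
  intro d δ hd hδ
  obtain ⟨c₀, C₁, h1, h2, h3, h4⟩ := mass_L tlb frp ctg d δ hd hδ
  refine ⟨c₀ / 2 ^ d, C₁, by positivity, ?_, h3, ?_⟩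
  · rw [div_le_one (by positivity)]
    exact le_trans h2 (one_le_pow₀ (by norm_num))
  intro E η i T L R hE hη hηc hL hR
  have h2d : (1 : ℝ) ≤ 2 ^ d := one_le_pow₀ (by norm_num)
  have hle : c₀ / 2 ^ d ≤ c₀ := div_le_self h1.le h2d
  have h5 := h4 E η i L R hE hη (le_trans hηc hle)
    (le_trans hL (div_le_div_of_nonneg_right hle hη.le)) hR
  have h6 : ∑ v ∈ (box (0 : Site d) R).filter (fun v => (L : ℤ) ≤ |v i|), ‖fk (zc E η) v‖ ^ 2 ≤
      ∑ T' : Finset (Fin d), ∑ v ∈ (box (0 : Site d) R).filter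
        (fun v => (L : ℤ) ≤ |v i| ∧ Or T' v), ‖fk (zc E η) v‖ ^ 2 := by
    simp only [Finset.sum_filter]
    rw [Finset.sum_comm]
    refine Finset.sum_le_sum fun v _ => ?_
    by_cases hv : (L : ℤ) ≤ |v i|
    · rw [if_pos hv]
      have hor : Or (Finset.univ.filter fun j => v j < 0) v := by
        intro j
        constructor
        · intro hj; exact (Finset.mem_filter.1 hj).2.le
        · intro hj
          by_contra hlt
          exact hj (Finset.mem_filter.2 ⟨Finset.mem_univ _, not_le.1 hlt⟩)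
      refine le_trans (le_of_eq ?_) (Finset.single_le_sum (f := fun T' : Finset (Fin d) =>
        if (L : ℤ) ≤ |v i| ∧ Or T' v then ‖fk (zc E η) v‖ ^ 2 else 0) (fun T' _ => ?_)
        (Finset.mem_univ (Finset.univ.filter fun j => v j < 0)))
      · rw [if_pos ⟨hv, hor⟩]
      · split_ifs
        · positivity
        · exact le_rfl
    · rw [if_neg hv]
      refine Finset.sum_nonneg fun T' _ => ?_
      split_ifs
      · positivity
      · exact le_rfl
  have h7 : ∑ T' : Finset (Fin d), ∑ v ∈ (box (0 : Site d) R).filter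
        (fun v => (L : ℤ) ≤ |v i| ∧ Or T' v), ‖fk (zc E η) v‖ ^ 2 =
      2 ^ d * ∑ v ∈ (box (0 : Site d) R).filter (fun v => (L : ℤ) ≤ |v i| ∧ Or T v),
        ‖fk (zc E η) v‖ ^ 2 := by
    rw [Finset.sum_congr rfl fun T' _ => orth_eq hη i L R T T', Finset.sum_const,
      Finset.card_univ, Fintype.card_finset, Fintype.card_fin, nsmul_eq_mul]
    push_cast
    rfl
  have h8 := le_trans h5 (le_trans h6 (le_of_eq h7))
  have h9 : c₀ / 2 ^ d / η ≤ ∑ v ∈ (box (0 : Site d) R).filter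
      (fun v => (L : ℤ) ≤ |v i| ∧ Or T v), ‖fk (zc E η) v‖ ^ 2 := by
    rw [div_right_comm, div_le_iff₀ (by positivity), mul_comm]
    exact h8
  refine le_trans h9 (le_of_eq ?_)
  refine Finset.sum_congr ?_ fun _ _ => rfl
  exact Finset.filter_congr fun v _ => Iff.rfl

end Pool.Agent.LE.MN.H68
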