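import Pool.Agent.LE.StmtsM

/-!
# LYM, FRQ: the free kernel, equation and reflections
-/

set_option autoImplicit false

open MeasureTheory ProbabilityTheory Function Filter

open scoped ENNReal BigOperators Topology NNReal ComplexConjugate

noncomputable section

namespace Pool.Agent.LE.MN.H68

open Pool.Agent.Anderson hiding box mem_box card_box
open Pool.Agent.Loc Pool.Agent.Mob Pool.Agent.Helper54.Bal
  Pool.Agent.Helper96.EXP Pool.Agent.BED

variable {d : ℕ}

theorem sy_sub_ne {E η : ℝ} (hη : 0 < η) (θ : UnitAddTorus (Fin d)) :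
    ((sy θ : ℂ) - zc E η) ≠ 0 := by
  intro h
  have := congrArg Complex.im h
  simp [zc] at this
  exact hη.ne' this

theorem cont_inv {E η : ℝ} (hη : 0 < η) :
    Continuous fun θ : UnitAddTorus (Fin d) => ((sy θ : ℂ) - zc E η)⁻¹ := by
  have h := continuous_sy (d := d)
  exact ((Complex.continuous_ofReal.comp h).sub continuous_const).inv₀ fun θ => sy_sub_ne hη θ

theorem ch_zero (θ : UnitAddTorus (Fin d)) : ch (0 : Site d) θ = 1 := by
  have h := ch_add (0 : Site d) 0 θ
  rw [add_zero] at h
  have h1 : ch (0 : Site d) θ ≠ 0 := by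
    intro h0
    have := norm_ch (0 : Site d) θ
    rw [h0, norm_zero] at this
    exact zero_ne_one this
  have h2 : ch (0 : Site d) θ * 1 = ch (0 : Site d) θ * ch (0 : Site d) θ := by rw [mul_one]; exact h
  exact (mul_left_cancel₀ h1 h2).symm

theorem integral_ch_one (v : Site d) :
    ∫ θ : UnitAddTorus (Fin d), ch v θ = if v = 0 then 1 else 0 := by
  have h := integral_ch (0 : Site d) v
  have e : ∀ θ : UnitAddTorus (Fin d), conj (ch (0 : Site d) θ) * ch v θ = ch v θ := by
    intro θ; rw [ch_zero, map_one, one_mul]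
  simp only [e] at h
  rw [h]
  by_cases hv : v = 0
  · rw [if_pos hv, if_pos hv.symm]
  · rw [if_neg hv, if_neg fun h' => hv h'.symm]

theorem fk_eq {E η : ℝ} (hη : 0 < η) (v : Site d) :
    lap (fk (zc E η)) v - zc E η * fk (zc E η) v = if v = 0 then 1 else 0 := by
  have hc := cont_inv (d := d) (E := E) hη
  have hcv : ∀ w : Site d, Integrable fun θ : UnitAddTorus (Fin d) =>
      ch w θ * ((sy θ : ℂ) - zc E η)⁻¹ := fun w => integrable_of_cont ((continuous_ch w).mul hc)
  have h1 : lap (fk (zc E η)) v = ∫ θ : UnitAddTorus (Fin d),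
      (sy θ : ℂ) * (ch v θ * ((sy θ : ℂ) - zc E η)⁻¹) := by
    have e1 : lap (fk (zc E η)) v = ∑ i : Fin d, ∫ θ : UnitAddTorus (Fin d),
        (ch (v + Pi.single i 1) θ * ((sy θ : ℂ) - zc E η)⁻¹ +
          ch (v - Pi.single i 1) θ * ((sy θ : ℂ) - zc E η)⁻¹) := by
      unfold lap fk
      refine Finset.sum_congr rfl fun i _ => ?_
      rw [integral_add (hcv _) (hcv _)]
    have hi : ∀ i ∈ (Finset.univ : Finset (Fin d)), Integrable fun θ : UnitAddTorus (Fin d) =>
        ch (v + Pi.single i 1) θ * ((sy θ : ℂ) - zc E η)⁻¹ +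
          ch (v - Pi.single i 1) θ * ((sy θ : ℂ) - zc E η)⁻¹ := fun i _ => (hcv _).add (hcv _)
    rw [e1, ← integral_finsetSum _ hi]
    refine integral_congr_ae (Filter.Eventually.of_forall fun θ => ?_)
    simp only
    have e2 : (sy θ : ℂ) = ∑ i : Fin d, ((Pool.Agent.Anderson.c2 (θ i) : ℝ) : ℂ) := by
      unfold sy
      push_cast
      rfl
    rw [show (sy θ : ℂ) * (ch v θ * ((sy θ : ℂ) - zc E η)⁻¹) =
      (∑ i : Fin d, ((Pool.Agent.Anderson.c2 (θ i) : ℝ) : ℂ)) *
        (ch v θ * ((sy θ : ℂ) - zc E η)⁻¹) by rw [← e2], Finset.sum_mul]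
    refine Finset.sum_congr rfl fun i _ => ?_
    have e3 : ((Pool.Agent.Anderson.c2 (θ i) : ℝ) : ℂ) = u (θ i) + conj (u (θ i)) := by
      unfold Pool.Agent.Anderson.c2; rw [Complex.add_conj]
    rw [ch_add, show v - Pi.single i 1 = v + -Pi.single i 1 from sub_eq_add_neg _ _, ch_add, ch_neg,
      ch_single, e3]
    ring
  have h2 : zc E η * fk (zc E η) v = ∫ θ : UnitAddTorus (Fin d),
      zc E η * (ch v θ * ((sy θ : ℂ) - zc E η)⁻¹) := by
    unfold fk
    rw [integral_const_mul]
  rw [h1, h2, ← integral_sub]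
  · rw [← integral_ch_one]
    refine integral_congr_ae (Filter.Eventually.of_forall fun θ => ?_)
    simp only
    have := sy_sub_ne (d := d) (E := E) hη θ
    rw [← sub_mul]
    calc ((sy θ : ℂ) - zc E η) * (ch v θ * ((sy θ : ℂ) - zc E η)⁻¹) =
          ch v θ * (((sy θ : ℂ) - zc E η) * ((sy θ : ℂ) - zc E η)⁻¹) := by ring
      _ = ch v θ := by rw [mul_inv_cancel₀ this, mul_one]
  · exact integrable_of_cont ((Complex.continuous_ofReal.comp continuous_sy).mul
      ((continuous_ch v).mul hc))
  · exact integrable_of_cont (continuous_const.mul ((continuous_ch v).mul hc))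

/-- the reflection -/
def rf (T : Finset (Fin d)) (θ : UnitAddTorus (Fin d)) : UnitAddTorus (Fin d) :=
  fun j => if j ∈ T then -θ j else θ j

theorem u_neg (t : UnitAddCircle) : u (-t) = conj (u t) := by
  have h1 : u (-t) * u t = 1 := by
    rw [← u_add, neg_add_cancel]
    unfold u
    simp
  have h2 : conj (u t) * u t = 1 := by
    rw [mul_comm, Complex.mul_conj, Complex.normSq_eq_norm_sq, norm_u]; norm_num
  have h3 : u t ≠ 0 := by
    intro h0
    have := norm_u t
    rw [h0, norm_zero] at this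
    exact zero_ne_one this
  exact mul_right_cancel₀ h3 (h1.trans h2.symm)

theorem c2_neg (t : UnitAddCircle) : Pool.Agent.Anderson.c2 (-t) = Pool.Agent.Anderson.c2 t := by
  unfold Pool.Agent.Anderson.c2
  rw [u_neg, Complex.conj_re]

theorem sy_rf (T : Finset (Fin d)) (θ : UnitAddTorus (Fin d)) : sy (rf T θ) = sy θ := by
  unfold sy rf
  refine Finset.sum_congr rfl fun i _ => ?_
  split_ifs
  · exact c2_neg _
  · rfl

theorem ch_rf (T : Finset (Fin d)) (v : Site d) (θ : UnitAddTorus (Fin d)) :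
    ch (fun j => if j ∈ T then -v j else v j) (rf T θ) = ch v θ := by
  unfold ch UnitAddTorus.mFourier rf
  simp only [ContinuousMap.coe_mk]
  refine Finset.prod_congr rfl fun i _ => ?_
  split_ifs
  · simp only [fourier_apply, smul_neg, neg_smul, neg_neg]
  · rfl

theorem mp_rf (T : Finset (Fin d)) :
    MeasurePreserving (rf T) (volume : Measure (UnitAddTorus (Fin d))) volume := by
  refine volume_preserving_pi (f := fun j (t : UnitAddCircle) => if j ∈ T then -t else t) fun j => ?_
  by_cases h : j ∈ T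
  · simp only [if_pos h]
    exact Measure.measurePreserving_neg _
  · simp only [if_neg h]
    exact MeasurePreserving.id _

theorem frq : FrqStmt := by
  intro d E η hη
  refine ⟨fun v => fk_eq hη v, fun T v => ?_⟩
  unfold fk
  have h1 := (mp_rf (d := d) T).map_eq
  have hg : Continuous fun θ : UnitAddTorus (Fin d) =>
      ch (fun j => if j ∈ T then -v j else v j) θ * ((sy θ : ℂ) - zc E η)⁻¹ :=
    (continuous_ch _).mul (cont_inv hη)
  calc ∫ θ : UnitAddTorus (Fin d), ch (fun j => if j ∈ T then -v j else v j) θ *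
        ((sy θ : ℂ) - zc E η)⁻¹ =
        ∫ θ : UnitAddTorus (Fin d), ch (fun j => if j ∈ T then -v j else v j) θ *
        ((sy θ : ℂ) - zc E η)⁻¹ ∂(Measure.map (rf T) volume) := by rw [h1]
    _ = ∫ θ : UnitAddTorus (Fin d), ch (fun j => if j ∈ T then -v j else v j) (rf T θ) *
        ((sy (rf T θ) : ℂ) - zc E η)⁻¹ :=
        integral_map (mp_rf T).measurable.aemeasurable hg.aestronglyMeasurable
    _ = ∫ θ : UnitAddTorus (Fin d), ch v θ * ((sy θ : ℂ) - zc E η)⁻¹ := by
        refine integral_congr_ae (Filter.Eventually.of_forall fun θ => ?_)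
        simp only
        rw [ch_rf, sy_rf]

end Pool.Agent.LE.MN.H68
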