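import Pool.Agent.Helper68_LYM.FRQ

/-!
# LYM, TLB: translation of the free kernel
-/

set_option autoImplicit false

open MeasureTheory ProbabilityTheory Function Filter

open scoped ENNReal BigOperators Topology NNReal ComplexConjugate

noncomputable section

namespace Pool.Agent.LE.MN.H68

open Pool.Agent.Anderson hiding box mem_box card_box c2
open Pool.Agent.Loc Pool.Agent.Mob Pool.Agent.Helper54.Bal
  Pool.Agent.Helper96.EXP Pool.Agent.BED

variable {d : ℕ}


theorem sy_add_single (θ : UnitAddTorus (Fin d)) (i : Fin d) (t : UnitAddCircle) :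
    sy (θ + Pi.single i t) - sy θ =
      Pool.Agent.Anderson.c2 (θ i + t) - Pool.Agent.Anderson.c2 (θ i) := by
  unfold sy
  rw [← Finset.sum_sub_distrib, Finset.sum_eq_single i]
  · simp
  · intro j _ hj
    simp [hj]
  · intro h; exact absurd (Finset.mem_univ _) h

/-- the increment of the cosine -/
theorem c2_inc (t : UnitAddCircle) {η : ℝ} (hη : 0 < η) (h4 : η ≤ 1 / 4) {s₀ : ℝ}
    (hs : s₀ ≤ |sn t|) (hηs : 4 * Real.pi ^ 2 * η ≤ 4 * s₀) :
    4 * s₀ * η ≤ |Pool.Agent.Anderson.c2 (t + (η : UnitAddCircle)) - Pool.Agent.Anderson.c2 t| ∧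
      |Pool.Agent.Anderson.c2 (t + (η : UnitAddCircle)) - Pool.Agent.Anderson.c2 t| ≤
        4 * Real.pi * η := by
  have hpi := Real.pi_pos
  obtain ⟨x, hx⟩ : ∃ x, x = 2 * Real.pi * η := ⟨_, rfl⟩
  have hx0 : 0 < x := by rw [hx]; positivity
  have hx2 : x ≤ Real.pi / 2 := by rw [hx]; nlinarith
  have hu : u (η : UnitAddCircle) = (Real.cos x : ℂ) + Real.sin x * Complex.I := by
    rw [u_coe, show (2 * Real.pi * η * Complex.I : ℂ) = (x : ℂ) * Complex.I by rw [hx]; push_cast; rfl,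
      Complex.exp_mul_I]
    push_cast
    rfl
  have he : Pool.Agent.Anderson.c2 (t + (η : UnitAddCircle)) - Pool.Agent.Anderson.c2 t =
      2 * ((u t).re * (Real.cos x - 1) - (u t).im * Real.sin x) := by
    unfold Pool.Agent.Anderson.c2
    rw [u_add, hu]
    simp only [Complex.add_re, Complex.mul_re, Complex.ofReal_re, Complex.ofReal_im, Complex.I_re,
      Complex.I_im, Complex.add_im, Complex.mul_im]
    ring
  have hn : (u t).re ^ 2 + (u t).im ^ 2 = 1 := by
    have := Complex.normSq_eq_norm_sq (u t)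
    rw [norm_u, Complex.normSq_apply] at this
    nlinarith
  have hre : |(u t).re| ≤ 1 := by
    have := Complex.abs_re_le_norm (u t); rwa [norm_u] at this
  have hsin0 : 0 ≤ Real.sin x := Real.sin_nonneg_of_nonneg_of_le_pi hx0.le (by linarith)
  have hsin1 : 2 / Real.pi * x ≤ Real.sin x := Real.mul_le_sin hx0.le hx2
  have hcos : 1 - Real.cos x ≤ x ^ 2 / 2 := by
    have := Real.one_sub_sq_div_two_le_cos (x := x); linarith
  have hcos0 : 0 ≤ 1 - Real.cos x := by linarith [Real.cos_le_one x]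
  have h4η : 4 * η ≤ Real.sin x := by
    have : 2 / Real.pi * x = 4 * η := by rw [hx]; field_simp; ring
    linarith
  constructor
  · rw [he, abs_mul, abs_of_pos (by norm_num : (0 : ℝ) < 2)]
    have a1 : |(u t).im * Real.sin x| ≥ s₀ * (4 * η) := by
      rw [abs_mul, abs_of_nonneg hsin0]
      have h1 : s₀ ≤ |(u t).im| := hs
      rcases le_total 0 s₀ with h0 | h0
      · exact mul_le_mul h1 h4η (by positivity) (abs_nonneg _)
      · exact le_trans (mul_nonpos_of_nonpos_of_nonneg h0 (by positivity))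
          (mul_nonneg (abs_nonneg _) hsin0)
    have a2 : |(u t).re * (Real.cos x - 1)| ≤ x ^ 2 / 2 := by
      rw [abs_mul, abs_sub_comm, abs_of_nonneg hcos0]
      calc |(u t).re| * (1 - Real.cos x) ≤ 1 * (x ^ 2 / 2) :=
            mul_le_mul hre hcos hcos0 zero_le_one
        _ = _ := one_mul _
    have a3 := abs_sub_abs_le_abs_sub ((u t).im * Real.sin x) ((u t).re * (Real.cos x - 1))
    rw [abs_sub_comm ((u t).im * Real.sin x)] at a3
    have a4 : x ^ 2 / 2 ≤ 2 * s₀ * η := by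
      rw [hx]
      nlinarith
    linarith
  · rw [he, abs_mul, abs_of_pos (by norm_num : (0 : ℝ) < 2)]
    have h1 : ((u t).re * (Real.cos x - 1) - (u t).im * Real.sin x) ^ 2 ≤ x ^ 2 := by
      have h2 : ((u t).re * (Real.cos x - 1) - (u t).im * Real.sin x) ^ 2 ≤
          ((u t).re ^ 2 + (u t).im ^ 2) * ((Real.cos x - 1) ^ 2 + Real.sin x ^ 2) := by
        nlinarith [sq_nonneg ((u t).re * Real.sin x + (u t).im * (Real.cos x - 1))]
      have h3 : (Real.cos x - 1) ^ 2 + Real.sin x ^ 2 = 2 * (1 - Real.cos x) := by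
        nlinarith [Real.sin_sq_add_cos_sq x]
      rw [hn, h3] at h2
      linarith
    have h2 : |(u t).re * (Real.cos x - 1) - (u t).im * Real.sin x| ≤ x :=
      abs_le_of_sq_le_sq h1 hx0.le
    linarith

theorem tlb (mea : MeaStmt) : TlbStmt := by
  intro d δ hd hδ
  obtain ⟨c, s₀, hc, hs0, hs1, hmea⟩ := mea d δ hd hδ
  have hpi := Real.pi_pos
  have hpi3 := Real.pi_gt_three
  obtain ⟨κ, hκ⟩ : ∃ κ, κ = (2 * s₀ / (4 * Real.pi + 2)) ^ 2 := ⟨_, rfl⟩
  have hκ0 : 0 < κ := by rw [hκ]; positivity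
  refine ⟨min (κ * c) (min (1 / 4) (s₀ / Real.pi ^ 2)), by positivity, ?_⟩
  intro E η i hE hη hηc
  have h1 : η ≤ 1 / 4 := le_trans hηc (le_trans (min_le_right _ _) (min_le_left _ _))
  have h2 : η ≤ s₀ / Real.pi ^ 2 := le_trans hηc (le_trans (min_le_right _ _) (min_le_right _ _))
  have h3 : 4 * Real.pi ^ 2 * η ≤ 4 * s₀ := by
    rw [le_div_iff₀ (by positivity)] at h2
    linarith
  obtain ⟨f, hf⟩ : ∃ f : UnitAddTorus (Fin d) → ℝ, f = fun θ =>
      ‖((sy (θ + Pi.single i (η : UnitAddCircle)) : ℂ) - zc E η)⁻¹ -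
        ((sy θ : ℂ) - zc E η)⁻¹‖ ^ 2 := ⟨_, rfl⟩
  have hfc : Continuous f := by
    have hc1 := cont_inv (d := d) (E := E) hη
    have hc2 : Continuous fun θ : UnitAddTorus (Fin d) =>
        ((sy (θ + Pi.single i (η : UnitAddCircle)) : ℂ) - zc E η)⁻¹ :=
      hc1.comp (continuous_id.add continuous_const)
    rw [hf]
    exact (hc2.sub hc1).norm.pow 2
  have hpt : ∀ θ : UnitAddTorus (Fin d), |sy θ - E| ≤ η ∧ s₀ ≤ |sn (θ i)| → κ / η ^ 2 ≤ f θ := by
    intro θ ⟨ha, hsn⟩
    obtain ⟨g1, g2⟩ := c2_inc (θ i) hη h1 hsn h3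
    rw [← sy_add_single] at g1 g2
    obtain ⟨a, ha'⟩ : ∃ a : ℂ, a = (sy θ : ℂ) - zc E η := ⟨_, rfl⟩
    obtain ⟨b, hb'⟩ : ∃ b : ℂ, b = (sy (θ + Pi.single i (η : UnitAddCircle)) : ℂ) - zc E η :=
      ⟨_, rfl⟩
    have ha0 : a ≠ 0 := by rw [ha']; exact sy_sub_ne hη θ
    have hb0 : b ≠ 0 := by rw [hb']; exact sy_sub_ne hη _
    have hba : b - a = ((sy (θ + Pi.single i (η : UnitAddCircle)) - sy θ : ℝ) : ℂ) := by
      rw [ha', hb']; push_cast; ring
    have hna : ‖a‖ ≤ 2 * η := by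
      have e : a = ((sy θ - E : ℝ) : ℂ) + (-(η : ℂ) * Complex.I) := by
        rw [ha', zc]; push_cast; ring
      rw [e]
      refine le_trans (norm_add_le _ _) ?_
      rw [Complex.norm_real, Real.norm_eq_abs, norm_mul, Complex.norm_I, mul_one, norm_neg,
        Complex.norm_real, Real.norm_eq_abs, abs_of_pos hη]
      linarith
    have hnb : ‖b‖ ≤ (4 * Real.pi + 2) * η := by
      have e : b = (b - a) + a := by ring
      rw [e]
      refine le_trans (norm_add_le _ _) ?_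
      rw [hba, Complex.norm_real, Real.norm_eq_abs]
      linarith
    have e1 : b⁻¹ - a⁻¹ = -((b - a) / (a * b)) := by
      field_simp
      ring
    have e2 : f θ = (|sy (θ + Pi.single i (η : UnitAddCircle)) - sy θ| / (‖a‖ * ‖b‖)) ^ 2 := by
      rw [hf]
      simp only
      rw [← ha', ← hb', e1, norm_neg, norm_div, norm_mul, hba, Complex.norm_real,
        Real.norm_eq_abs]
    have hna0 : 0 < ‖a‖ := norm_pos_iff.2 ha0
    have hnb0 : 0 < ‖b‖ := norm_pos_iff.2 hb0
    have e3 : 2 * s₀ / (4 * Real.pi + 2) / η ≤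
        |sy (θ + Pi.single i (η : UnitAddCircle)) - sy θ| / (‖a‖ * ‖b‖) := by
      rw [div_div, div_le_div_iff₀ (by positivity) (by positivity)]
      have e4 : ‖a‖ * ‖b‖ ≤ 2 * η * ((4 * Real.pi + 2) * η) :=
        mul_le_mul hna hnb hnb0.le (by positivity)
      calc 2 * s₀ * (‖a‖ * ‖b‖) ≤ 2 * s₀ * (2 * η * ((4 * Real.pi + 2) * η)) :=
            mul_le_mul_of_nonneg_left e4 (by positivity)
        _ = (4 * s₀ * η) * ((4 * Real.pi + 2) * η) := by ring
        _ ≤ _ := mul_le_mul_of_nonneg_right g1 (by positivity)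
    rw [e2, hκ]
    calc (2 * s₀ / (4 * Real.pi + 2)) ^ 2 / η ^ 2 = (2 * s₀ / (4 * Real.pi + 2) / η) ^ 2 := by
          rw [div_pow _ η]
      _ ≤ _ := pow_le_pow_left₀ (by positivity) e3 2
  have hm := hmea E η i hE hη (by linarith)
  have hint : Integrable f := integrable_of_cont hfc
  have hmk := mul_meas_ge_le_integral_of_nonneg (μ := (volume : Measure (UnitAddTorus (Fin d))))
    (Filter.Eventually.of_forall fun θ => by rw [hf]; positivity) hint (κ / η ^ 2)
  have hsub : c * η ≤ (volume : Measure (UnitAddTorus (Fin d))).real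
      {θ | κ / η ^ 2 ≤ f θ} := by
    have h4 : ENNReal.ofReal (c * η) ≤ volume {θ : UnitAddTorus (Fin d) | κ / η ^ 2 ≤ f θ} :=
      le_trans hm (measure_mono fun θ hθ => hpt θ hθ)
    have h5 := ENNReal.toReal_mono (measure_ne_top _ _) h4
    rwa [ENNReal.toReal_ofReal (by positivity)] at h5
  calc min (κ * c) (min (1 / 4) (s₀ / Real.pi ^ 2)) / η ≤ κ * c / η :=
        div_le_div_of_nonneg_right (min_le_left _ _) hη.le
    _ = κ / η ^ 2 * (c * η) := by field_simp
    _ ≤ κ / η ^ 2 * (volume : Measure (UnitAddTorus (Fin d))).real {θ | κ / η ^ 2 ≤ f θ} :=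
        mul_le_mul_of_nonneg_left hsub (by positivity)
    _ ≤ ∫ θ, f θ := hmk
    _ = _ := by rw [hf]

end Pool.Agent.LE.MN.H68
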